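import Pool.Agent.H39.Newt3.Base

/-! # Project NEWTON3: NUL, the Nullstellensatz for the group ring -/

set_option autoImplicit false

namespace Pool.Newt3

open MvPolynomial Pool.Agent.H39.MonoR Pool.Agent.H75.Mono Pool.Newt Pool.Newt2

theorem sNul : SNul := by
  intro I _ K hK
  classical
  by_contra hne
  obtain ⟨M, hM, hKM⟩ := Ideal.exists_le_maximal K hne
  have : M.IsMaximal := hM
  let _ : Field (GR I ⧸ M) := Ideal.Quotient.field M
  have hfg : AddMonoid.FG (I → ℤ) := by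
    rw [← AddGroup.fg_iff_addMonoid_fg]
    exact Module.Finite.iff_addGroup_fg.mp (inferInstance : Module.Finite ℤ (I → ℤ))
  have hft : Algebra.FiniteType ℂ (GR I) := AddMonoidAlgebra.finiteType_of_fg ℂ (I → ℤ)
  have hft2 : Algebra.FiniteType ℂ (GR I ⧸ M) :=
    Algebra.FiniteType.of_surjective (Ideal.Quotient.mkₐ ℂ M) (Ideal.Quotient.mkₐ_surjective ℂ M)
  have hfin : Module.Finite ℂ (GR I ⧸ M) := finite_of_finite_type_of_isJacobsonRing ℂ (GR I ⧸ M)
  have hint : Algebra.IsIntegral ℂ (GR I ⧸ M) := Algebra.IsIntegral.of_finite ℂ (GR I ⧸ M)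
  have hbij : Function.Bijective (algebraMap ℂ (GR I ⧸ M)) :=
    IsAlgClosed.algebraMap_bijective_of_isIntegral
  let e : ℂ ≃ₐ[ℂ] (GR I ⧸ M) := AlgEquiv.ofBijective (Algebra.ofId ℂ (GR I ⧸ M)) hbij
  let φ : GR I →ₐ[ℂ] ℂ := (e.symm : (GR I ⧸ M) →ₐ[ℂ] ℂ).comp (Ideal.Quotient.mkₐ ℂ M)
  have hφ : ∀ h ∈ M, φ h = 0 := by
    intro h hh
    show e.symm (Ideal.Quotient.mkₐ ℂ M h) = 0
    rw [Ideal.Quotient.mkₐ_eq_mk, Ideal.Quotient.eq_zero_iff_mem.mpr hh, map_zero]
  -- the group homomorphism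
  let ψ0 : Multiplicative (I → ℤ) →* ℂ :=
    (φ : GR I →* ℂ).comp (AddMonoidAlgebra.of ℂ (I → ℤ))
  let ψ : Multiplicative (I → ℤ) →* ℂˣ := ψ0.toHomUnits
  have hψ : ∀ m : I → ℤ, ((ψ (Multiplicative.ofAdd m) : ℂˣ) : ℂ) =
      φ (AddMonoidAlgebra.single m 1) := by
    intro m
    show ψ0 (Multiplicative.ofAdd m) = _
    show φ (AddMonoidAlgebra.of ℂ (I → ℤ) (Multiplicative.ofAdd m)) = _
    rw [AddMonoidAlgebra.of_apply]
    rfl
  let p : I → ℂˣ := fun i => ψ (Multiplicative.ofAdd (Pi.single i 1))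
  have hp : ∀ m : I → ℤ, ψ (Multiplicative.ofAdd m) = pw p m := by
    intro m
    have hm : m = ∑ i, m i • (Pi.single i (1 : ℤ) : I → ℤ) := by
      funext j
      rw [Finset.sum_apply, Finset.sum_eq_single j]
      · simp
      · intro b _ hb
        rw [Pi.smul_apply, Pi.single_eq_of_ne (Ne.symm hb), smul_zero]
      · intro h
        exact absurd (Finset.mem_univ j) h
    have hm2 : Multiplicative.ofAdd m =
        ∏ i, (Multiplicative.ofAdd (Pi.single i (1 : ℤ) : I → ℤ)) ^ (m i) := by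
      have h2 : Multiplicative.ofAdd (∑ i, m i • (Pi.single i (1 : ℤ) : I → ℤ)) =
          ∏ i, (Multiplicative.ofAdd (Pi.single i (1 : ℤ) : I → ℤ)) ^ (m i) := by
        rw [ofAdd_sum]
        rfl
      rw [← h2, ← hm]
    rw [hm2, map_prod]
    unfold pw
    refine Finset.prod_congr rfl fun i _ => ?_
    rw [map_zpow]
  have hev : evp p = φ := by
    refine AddMonoidAlgebra.algHom_ext (R := ℂ) (A := ℂ) (M := I → ℤ) (B := ℂ) (fun m => ?_) ?_
    · rw [evp_single, one_mul, ← hp, hψ]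
    · exact Subsingleton.elim _ _
  obtain ⟨h, hhK, hne0⟩ := hK p
  exact hne0 (by rw [hev]; exact hφ h (hKM hhK))

end Pool.Newt3
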